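import Pool.Agent.H99.CE.Targets
import Pool.Agent.H96.Cop.Sum3

/-!
# Rows GHT and GMU of crx_modules: moments of the long excursions below the interface

MP_65efe8_pr.
-/

set_option autoImplicit false

open MeasureTheory ProbabilityTheory Filter Topology
open scoped ENNReal
open Pool.Agent.H95 Pool.Agent.H95.Cop Pool.Agent.H96.Cop Pool.Agent.H99.CE

namespace Pool.Agent.H96.CE

lemma kp_pos {α σ d δ : ℝ} (hα : 0 < α) (hθ : 0 < th α σ) (hδ : 0 < δ) (hδ1 : δ ≤ 1 / 2)
    (hd : σ < d) : 0 < kp α σ d δ := by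
  unfold kp
  have h1 : 0 < 1 - δ := by linarith
  have h2 : 0 < d - σ := by linarith
  positivity

lemma gd_rpow {α σ c δ : ℝ} {k D : ℕ} (hα : 0 < α) (hσ : 0 < σ)
    (hc : 0 < c) (hδ : 0 < δ) (hk : 1 ≤ k) :
    gd α c δ k D ^ th α σ ≤ ENNReal.ofReal (((1 + δ) * c / 2 * (k : ℝ) ^ (-(1 + α))) ^ th α σ *
      (1 / ((max (D - 1) 1 : ℕ) : ℝ))) := by
  have hk0 : (0 : ℝ) < k := by exact_mod_cast hk
  have hm1 : (1 : ℝ) ≤ ((max (D - 1) 1 : ℕ) : ℝ) := by exact_mod_cast le_max_right (D - 1) 1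
  have hm0 : (0 : ℝ) < ((max (D - 1) 1 : ℕ) : ℝ) := by linarith
  have hA : 0 < (1 + δ) * c / 2 * (k : ℝ) ^ (-(1 + α)) := by
    have : 0 < (k : ℝ) ^ (-(1 + α)) := Real.rpow_pos_of_pos hk0 _
    positivity
  have hw : 0 < wq α D := by
    unfold wq
    exact Real.rpow_pos_of_pos hm0 _
  unfold gd
  rw [ENNReal.ofReal_rpow_of_pos (mul_pos hA hw), Real.mul_rpow hA.le hw.le]
  apply ENNReal.ofReal_le_ofReal
  apply mul_le_mul_of_nonneg_left _ (Real.rpow_nonneg hA.le _)
  unfold wq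
  rw [← Real.rpow_mul hm0.le]
  have e : -(1 + α) * th α σ = -(1 + (1 + α) * (σ * α ^ 2)) := by
    unfold th
    field_simp
  rw [e, Real.rpow_neg hm0.le, ← one_div]
  apply one_div_le_one_div_of_le hm0
  calc ((max (D - 1) 1 : ℕ) : ℝ) = ((max (D - 1) 1 : ℕ) : ℝ) ^ (1 : ℝ) := (Real.rpow_one _).symm
    _ ≤ _ := Real.rpow_le_rpow_of_exponent_le hm1 (by
      have : 0 < (1 + α) * (σ * α ^ 2) := by positivity
      linarith)

lemma one_sub_exp_ge {κ : ℝ} (h0 : 0 < κ) (h1 : κ ≤ 1) : κ / 2 ≤ 1 - Real.exp (-κ) := by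
  have h6 : Real.exp (-κ) ≤ 1 / (1 + κ) := by
    rw [Real.exp_neg, ← one_div]
    apply one_div_le_one_div_of_le (by positivity)
    have := Real.add_one_le_exp κ
    linarith
  have h7 : 1 / (1 + κ) ≤ 1 - κ / 2 := by
    rw [div_le_iff₀ (by positivity)]
    nlinarith
  linarith

lemma geom_le {x : ℝ} (h0 : 0 ≤ x) (h1 : x < 1) (n : ℕ) :
    ∑ i ∈ Finset.range n, x ^ i ≤ 1 / (1 - x) := by
  have h2 : 0 < 1 - x := by linarith
  have h3 : 0 ≤ x ^ n := pow_nonneg h0 n
  have h4 := mul_neg_geom_sum x n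
  rw [le_div_iff₀ h2, mul_comm, h4]
  linarith

lemma ght_num {κ : ℝ} (n0 : ℕ) (h0 : 0 < κ) (h1 : κ ≤ 1) (hn : 10 ≤ n0 * κ) (hn0 : 1 ≤ n0)
    (L : ℕ) : ∑ i ∈ Finset.range L, (2 + ((i + 1 : ℕ) : ℝ) / n0) * hl (Real.exp (-κ)) i ≤
      6 + 2 * Real.log (1 / κ) := by
  set x := Real.exp (-κ) with hx
  have hx0 : 0 < x := Real.exp_pos _
  have hx1 : x < 1 := by rw [hx, Real.exp_lt_one_iff]; linarith
  have hN : (0 : ℝ) < n0 := by exact_mod_cast hn0
  have hge := one_sub_exp_ge h0 h1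
  rw [← hx] at hge
  have hterm : ∀ i ∈ Finset.range L, (2 + ((i + 1 : ℕ) : ℝ) / n0) * hl x i ≤
      (2 + 1 / n0) * hl x i + 1 / n0 * x ^ i := by
    intro i _
    have h3 : ((i + 1 : ℕ) : ℝ) * hl x i ≤ hl x i + x ^ i := by
      unfold hl
      rcases Nat.eq_zero_or_pos i with rfl | hi
      · simp
      · rw [max_eq_left (by omega : 1 ≤ i)]
        have hi0 : (0 : ℝ) < i := by exact_mod_cast hi
        push_cast
        have : (i : ℝ) * (x ^ i / i) = x ^ i := by field_simp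
        rw [add_mul, this]
        linarith
    have h4 := mul_le_mul_of_nonneg_left h3 (by positivity : (0 : ℝ) ≤ 1 / n0)
    have e1 : (2 + ((i + 1 : ℕ) : ℝ) / n0) * hl x i =
        2 * hl x i + 1 / n0 * (((i + 1 : ℕ) : ℝ) * hl x i) := by ring
    have e2 : (2 + 1 / n0) * hl x i + 1 / n0 * x ^ i =
        2 * hl x i + 1 / n0 * (hl x i + x ^ i) := by ring
    rw [e1, e2]
    linarith
  refine (Finset.sum_le_sum hterm).trans ?_
  rw [Finset.sum_add_distrib, ← Finset.mul_sum, ← Finset.mul_sum]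
  have hs1 := sum_hl hx0.le hx1 L
  have hs2 := geom_le hx0.le hx1 L
  have hlog : -Real.log (1 - x) ≤ Real.log 2 + Real.log (1 / κ) := by
    rw [← Real.log_mul (by norm_num) (by positivity)]
    have e : (2 : ℝ) * (1 / κ) = (κ / 2)⁻¹ := by field_simp
    rw [e, Real.log_inv]
    have := Real.log_le_log (by positivity) hge
    linarith
  have hl2 : Real.log 2 ≤ 0.7 := by
    have := Real.log_two_lt_d9
    linarith
  have hl2' : 0 ≤ Real.log 2 := Real.log_nonneg (by norm_num)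
  have hinv : 1 / (n0 : ℝ) ≤ κ / 10 := by
    rw [div_le_div_iff₀ hN (by norm_num)]
    nlinarith
  have hinv0 : 0 ≤ 1 / (n0 : ℝ) := by positivity
  have hlk0 : 0 ≤ Real.log (1 / κ) := Real.log_nonneg (by rw [le_div_iff₀ h0]; linarith)
  have hlk : κ * Real.log (1 / κ) ≤ 1 := by
    have h3 := Real.log_le_sub_one_of_pos (x := 1 / κ) (by positivity)
    have h4 := mul_le_mul_of_nonneg_left h3 h0.le
    have e : κ * (1 / κ - 1) = 1 - κ := by field_simp
    rw [e] at h4
    linarith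
  have hA : ∑ i ∈ Finset.range L, hl x i ≤ 1 + (Real.log 2 + Real.log (1 / κ)) := by linarith
  have hB : ∑ i ∈ Finset.range L, x ^ i ≤ 2 / κ := by
    refine hs2.trans ?_
    rw [div_le_div_iff₀ (by linarith) h0]
    linarith
  have h5 : (2 + 1 / (n0 : ℝ)) * ∑ i ∈ Finset.range L, hl x i ≤
      (2 + κ / 10) * (1 + (Real.log 2 + Real.log (1 / κ))) := by
    apply mul_le_mul (by linarith) hA _ (by positivity)
    apply Finset.sum_nonneg
    intro i _
    unfold hl
    positivity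
  have h6 : 1 / (n0 : ℝ) * ∑ i ∈ Finset.range L, x ^ i ≤ 1 / 5 := by
    calc 1 / (n0 : ℝ) * ∑ i ∈ Finset.range L, x ^ i ≤ κ / 10 * (2 / κ) := by
          apply mul_le_mul hinv hB _ (by positivity)
          apply Finset.sum_nonneg
          intro i _
          positivity
      _ = 1 / 5 := by field_simp; norm_num
  have h7 : (2 + κ / 10) * (1 + (Real.log 2 + Real.log (1 / κ))) =
      2 + 2 * Real.log 2 + 2 * Real.log (1 / κ) + κ / 10 * (1 + Real.log 2) +
        (κ * Real.log (1 / κ)) / 10 := by ring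
  have h8 : κ / 10 * (1 + Real.log 2) ≤ 1 / 10 * (1 + 0.7) := by
    apply mul_le_mul (by linarith) (by linarith) (by linarith) (by norm_num)
  rw [h7] at h5
  linarith

theorem pf_GHT : T_GHT := by
  intro ν _ α σ d δ c b n0 k hα hα1 hσ hθ hc hδ hδ1 hd hk hn0 hκ1 hn hE L
  set κ := kp α σ d δ with hκd
  have hκ0 : 0 < κ := kp_pos hα hθ hδ hδ1 hd
  set g0 := ((1 + δ) * c / 2 * (k : ℝ) ^ (-(1 + α))) ^ th α σ with hg0
  have hk0 : (0 : ℝ) < k := by exact_mod_cast hk
  have hN : (0 : ℝ) < n0 := by exact_mod_cast hn0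
  have hg : 0 ≤ g0 := by
    have : 0 ≤ (k : ℝ) ^ (-(1 + α)) := Real.rpow_nonneg hk0.le _
    rw [hg0]
    positivity
  set x := Real.exp (-κ) with hx
  have hx0 : 0 < x := Real.exp_pos _
  have hterm : ∀ D ∈ Finset.Icc 1 L, om (D / n0 + 1) *
      (gd α c δ k D ^ th α σ * ∫⁻ x, ex 0 ((D - 1) * k) x ^ th α σ ∂(iid ν)) ≤
      ENNReal.ofReal (g0 * ((2 + ((D - 1 + 1 : ℕ) : ℝ) / n0) * hl x (D - 1))) := by
    intro D hD
    rw [Finset.mem_Icc] at hD
    have h1 : om (D / n0 + 1) ≤ ENNReal.ofReal (2 + (D : ℝ) / n0) := by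
      unfold om
      have h2 : ((D / n0 : ℕ) : ℝ) ≤ (D : ℝ) / n0 := Nat.cast_div_le
      have e : (1 : ℝ≥0∞) + ((D / n0 + 1 : ℕ) : ℝ≥0∞) =
          ENNReal.ofReal (2 + ((D / n0 : ℕ) : ℝ)) := by
        have e1 : (2 : ℝ) + ((D / n0 : ℕ) : ℝ) = ((1 + (D / n0 + 1) : ℕ) : ℝ) := by
          push_cast; ring
        rw [e1, ENNReal.ofReal_natCast]
        push_cast
        rfl
      rw [e]
      apply ENNReal.ofReal_le_ofReal
      linarith
    have h2 := gd_rpow (D := D) hα hσ hc hδ hk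
    rw [← hg0] at h2
    have h3 : ∫⁻ x, ex 0 ((D - 1) * k) x ^ th α σ ∂(iid ν) ≤ ENNReal.ofReal (x ^ (D - 1)) := by
      rw [lint_ex_rpow ν _ hθ.le, mul_comm (D - 1) k, pow_mul, ENNReal.ofReal_pow hx0.le]
      exact pow_le_pow_left' hE.mok _
    have hD1 : D - 1 + 1 = D := by omega
    rw [hD1]
    calc om (D / n0 + 1) *
        (gd α c δ k D ^ th α σ * ∫⁻ x, ex 0 ((D - 1) * k) x ^ th α σ ∂(iid ν))
        ≤ ENNReal.ofReal (2 + (D : ℝ) / n0) *
          (ENNReal.ofReal (g0 * (1 / ((max (D - 1) 1 : ℕ) : ℝ))) *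
            ENNReal.ofReal (x ^ (D - 1))) := mul_le_mul' h1 (mul_le_mul' h2 h3)
      _ = ENNReal.ofReal (g0 * ((2 + (D : ℝ) / n0) * hl x (D - 1))) := by
          rw [← ENNReal.ofReal_mul (by positivity), ← ENNReal.ofReal_mul (by positivity)]
          congr 1
          unfold hl
          ring
  refine (Finset.sum_le_sum hterm).trans ?_
  rw [← ENNReal.ofReal_sum_of_nonneg]
  · apply ENNReal.ofReal_le_ofReal
    rw [← Finset.mul_sum]
    apply mul_le_mul_of_nonneg_left _ hg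
    have h1 : ∑ D ∈ Finset.Icc 1 L, (2 + ((D - 1 + 1 : ℕ) : ℝ) / n0) * hl x (D - 1) =
        ∑ i ∈ Finset.range L, (2 + ((i + 1 : ℕ) : ℝ) / n0) * hl x i := by
      rw [← Finset.Ico_add_one_right_eq_Icc, Finset.sum_Ico_eq_sum_range]
      apply Finset.sum_congr (by simp)
      intro i _
      rw [Nat.add_sub_cancel_left]
    rw [h1]
    exact ght_num n0 hκ0 hκ1 hn hn0 L
  · intro D _
    have : 0 ≤ hl x (D - 1) := by unfold hl; positivity
    positivity

lemma lg_ex (n : ℕ) (x : ℕ → ℝ) : lg 1 (ex 0 n x) = ENNReal.ofReal (H x 0 n) := by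
  unfold lg ex
  rw [ENNReal.toReal_ofReal (Real.exp_pos _).le, div_one, Real.log_exp]

theorem pf_GMU : T_GMU := by
  intro ν _ α σ d δ c b k hα hα1 hσ hθ hc hδ hδ1 hd hk hE L
  set κ := kp α σ d δ with hκd
  have hκ0 : 0 < κ := kp_pos hα hθ hδ hδ1 hd
  set g0 := ((1 + δ) * c / 2 * (k : ℝ) ^ (-(1 + α))) ^ th α σ with hg0
  have hk0 : (0 : ℝ) < k := by exact_mod_cast hk
  have hg : 0 ≤ g0 := by
    have : 0 ≤ (k : ℝ) ^ (-(1 + α)) := Real.rpow_nonneg hk0.le _
    rw [hg0]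
    positivity
  set x := Real.exp (-κ) with hx
  have hx0 : 0 < x := Real.exp_pos _
  have hx1 : x < 1 := by rw [hx, Real.exp_lt_one_iff]; linarith
  set A := g0 * ((1 + δ) * α * δ / 2) with hA
  have hA0 : 0 ≤ A := by rw [hA]; positivity
  have hterm : ∀ D ∈ Finset.Icc 1 L, gd α c δ k D ^ th α σ *
      ∫⁻ x, ex 0 ((D - 1) * k) x ^ th α σ *
        (ENNReal.ofReal (α ^ 2) * lg 1 (ex 0 ((D - 1) * k) x)) ∂(iid ν) ≤
      ENNReal.ofReal (A * (if D - 1 = 0 then 0 else x ^ (D - 1))) := by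
    intro D hD
    rw [Finset.mem_Icc] at hD
    have h1 : ∀ y : ℕ → ℝ, ex 0 ((D - 1) * k) y ^ th α σ *
        (ENNReal.ofReal (α ^ 2) * lg 1 (ex 0 ((D - 1) * k) y)) = ENNReal.ofReal (α ^ 2) *
        (ex 0 ((D - 1) * k) y ^ th α σ * ENNReal.ofReal (H y 0 ((D - 1) * k))) := by
      intro y
      rw [lg_ex]
      ring
    simp_rw [h1]
    have hHm : Measurable (fun y : ℕ → ℝ => H y 0 ((D - 1) * k)) := by
      unfold H
      apply Finset.measurable_sum
      intro i _
      exact measurable_pi_apply i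
    have hmm : Measurable (fun y : ℕ → ℝ => ex 0 ((D - 1) * k) y ^ th α σ *
        ENNReal.ofReal (H y 0 ((D - 1) * k))) :=
      ((measurable_ex 0 _).pow_const _).mul (ENNReal.measurable_ofReal.comp hHm)
    rw [lintegral_const_mul _ hmm]
    by_cases h0 : D - 1 = 0
    · rw [if_pos h0, h0]
      simp [H]
    · rw [if_neg h0]
      have hi : 1 ≤ D - 1 := by omega
      have h2 := gd_rpow (D := D) hα hσ hc hδ hk
      rw [← hg0, max_eq_left hi] at h2
      have h3 := hE.moe (D - 1) hi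
      have hi0 : (0 : ℝ) < ((D - 1 : ℕ) : ℝ) := by exact_mod_cast hi
      refine (mul_le_mul' h2 (mul_le_mul' le_rfl h3)).trans ?_
      rw [← ENNReal.ofReal_mul (by positivity), ← ENNReal.ofReal_mul (by positivity)]
      apply ENNReal.ofReal_le_ofReal
      rw [← hκd]
      have e1 : Real.exp (-(κ * ((D - 1 : ℕ) : ℝ))) = x ^ (D - 1) := by
        rw [hx, ← Real.exp_nat_mul]
        congr 1
        ring
      rw [e1, hA]
      apply le_of_eq
      field_simp
      ring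
  refine (Finset.sum_le_sum hterm).trans ?_
  rw [← ENNReal.ofReal_sum_of_nonneg]
  · apply ENNReal.ofReal_le_ofReal
    rw [← Finset.mul_sum]
    have h1 : ∑ D ∈ Finset.Icc 1 L, (if D - 1 = 0 then (0 : ℝ) else x ^ (D - 1)) =
        ∑ i ∈ Finset.range L, (if i = 0 then (0 : ℝ) else x ^ i) := by
      rw [← Finset.Ico_add_one_right_eq_Icc, Finset.sum_Ico_eq_sum_range]
      apply Finset.sum_congr (by simp)
      intro i _
      rw [Nat.add_sub_cancel_left]
    rw [h1]
    have h2 : ∑ i ∈ Finset.range L, (if i = 0 then (0 : ℝ) else x ^ i) ≤ 1 / κ := by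
      have h3 : ∑ i ∈ Finset.range L, (if i = 0 then (0 : ℝ) else x ^ i) ≤
          ∑ i ∈ Finset.range (L + 1), (if i = 0 then (0 : ℝ) else x ^ i) := by
        rw [Finset.sum_range_succ]
        have : 0 ≤ (if L = 0 then (0 : ℝ) else x ^ L) := by
          split_ifs
          · exact le_rfl
          · positivity
        linarith
      refine h3.trans ?_
      rw [Finset.sum_range_succ']
      simp only [Nat.add_eq_zero_iff, one_ne_zero, and_false, if_false, if_true, add_zero]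
      have e2 : ∑ i ∈ Finset.range L, x ^ (i + 1) = x * ∑ i ∈ Finset.range L, x ^ i := by
        rw [Finset.mul_sum]
        apply Finset.sum_congr rfl
        intro i _
        ring
      rw [e2]
      have h4 := geom_le hx0.le hx1 L
      have h5 : x * ∑ i ∈ Finset.range L, x ^ i ≤ x * (1 / (1 - x)) :=
        mul_le_mul_of_nonneg_left h4 hx0.le
      refine h5.trans ?_
      rw [mul_one_div, div_le_div_iff₀ (by linarith) hκ0, one_mul]
      have h6 := Real.add_one_le_exp κ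
      have h7 : x * Real.exp κ = 1 := by
        rw [hx, ← Real.exp_add]; simp
      nlinarith
    have h3 := mul_le_mul_of_nonneg_left h2 hA0
    refine h3.trans (le_of_eq ?_)
    have hd0 : d - σ ≠ 0 := by
      have : 0 < d - σ := by linarith
      exact this.ne'
    have hδ0 : 1 - δ ≠ 0 := by
      have : 0 < 1 - δ := by linarith
      exact this.ne'
    rw [hA, hκd]
    unfold kp
    field_simp
    try ring
  · intro D _
    have : 0 ≤ (if D - 1 = 0 then (0 : ℝ) else x ^ (D - 1)) := by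
      split_ifs
      · exact le_rfl
      · positivity
    positivity

end Pool.Agent.H96.CE
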