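import Pool.Agent.H99.CE.Targets

/-!
# Row MO1 of crx_modules: mean of the neutral stretches between cells

MP_65efe8_pr.
-/

set_option autoImplicit false

open MeasureTheory ProbabilityTheory Filter Topology
open scoped ENNReal
open Pool.Agent.H95 Pool.Agent.H95.Cop Pool.Agent.H96.Cop Pool.Agent.H99.CE

namespace Pool.Agent.H96.CE

lemma lint_w0 (ν : Measure ℝ) [IsProbabilityMeasure ν] (K : PMF ℕ) (B k : ℕ) (Bd : ℝ≥0∞)
    (hB : Mo ν 1 ≤ Bd) (n : ℕ) : ∫⁻ x, w0 K B k n x ∂(iid ν) ≤ kc K B k Bd n := by
  unfold w0 kc wb
  rw [lintegral_add_left measurable_const]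
  simp only [lintegral_const, measure_univ, mul_one]
  split_ifs with h
  · rw [lintegral_const_mul _ (measurable_ex 0 n), lint_ex]
    gcongr
  · simp

lemma lint_PF (hPFM : T_PFM) (ν : Measure ℝ) [IsProbabilityMeasure ν] (K : PMF ℕ) (B k : ℕ)
    (Bd : ℝ≥0∞) (hB : Mo ν 1 ≤ Bd) (s : ℕ) :
    ∫⁻ x, PF (w0 K B k) s x ∂(iid ν) ≤ Un (kc K B k Bd) s := by
  have hW : WR (w0 K B k) := (hPFM.2 K).2 B k
  induction s using Nat.strong_induction_on with
  | _ s ih =>
    cases s with
    | zero => simp [PF_zero, Un_zero]
    | succ s =>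
      simp_rw [PF_succ]
      rw [Un_succ, lintegral_finsetSum]
      · apply Finset.sum_le_sum
        intro j hj
        rw [Finset.mem_range] at hj
        rw [lint_mul_shift ν (hW (j + 1)).2.1 (hW (j + 1)).1 ((hPFM.1 _ hW).1 _).1]
        exact mul_le_mul' (lint_w0 ν K B k Bd hB (j + 1)) (ih (s - j) (by omega))
      · intro j _
        exact (hW (j + 1)).1.mul (((hPFM.1 _ hW).1 _).1.comp (measurable_shift _))

lemma lint_term (hPFM : T_PFM) (ν : Measure ℝ) [IsProbabilityMeasure ν] (K : PMF ℕ) (B k : ℕ)
    (Bd : ℝ≥0∞) (hB1 : 1 ≤ Bd) (hB : Mo ν 1 ≤ Bd) (p q : Bool) (a e r : ℕ) (he : e < k)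
    (h : e ≤ a * k + r) :
    ∫⁻ x, (if p then ex 0 e x else 1) * PF (w0 K B k) (a * k + r - e) (shift e x) *
      (if q then ex (a * k + r) ((a + 1) * k) x else 1) ∂(iid ν) ≤
      Bd ^ (2 * k) * Un (kc K B k Bd) (a * k + r - e) := by
  have hW : WR (w0 K B k) := (hPFM.2 K).2 B k
  have hP := (hPFM.1 _ hW).1 (a * k + r - e)
  have hk : (a + 1) * k = a * k + k := by ring
  have hk2 : (a + 1) * k - (a * k + r) ≤ k := by omega
  have h2 := lint_PF hPFM ν K B k Bd hB (a * k + r - e)
  -- the right factor
  have hR : ∀ x : ℕ → ℝ, (if q then ex (a * k + r) ((a + 1) * k) x else 1) ≤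
      (fun y => if q then ex (a * k + r - e) ((a + 1) * k - e) y else 1) (shift e x) := by
    intro x
    by_cases hr : a * k + r ≤ (a + 1) * k
    · cases q with
      | false => simp
      | true =>
        simp only [if_true]
        rw [ex_shift]
        have e1 : a * k + r - e + e = a * k + r := by omega
        have e2 : (a + 1) * k - e + e = (a + 1) * k := by omega
        rw [e1, e2]
    · cases q with
      | false => simp
      | true =>
        simp only [if_true]
        have h3 : ex (a * k + r) ((a + 1) * k) x = 1 := by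
          unfold ex H
          rw [Finset.Ico_eq_empty (by omega)]
          simp
        have h4 : ex (a * k + r - e) ((a + 1) * k - e) (shift e x) = 1 := by
          unfold ex H
          rw [Finset.Ico_eq_empty (by omega)]
          simp
        rw [h3, h4]
  have hQm : Measurable (fun y : ℕ → ℝ => PF (w0 K B k) (a * k + r - e) y *
      (if q then ex (a * k + r - e) ((a + 1) * k - e) y else 1)) := by
    refine hP.1.mul ?_
    cases q with
    | false => simp
    | true => simpa using measurable_ex _ _
  have hQ : ∫⁻ y, PF (w0 K B k) (a * k + r - e) y *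
      (if q then ex (a * k + r - e) ((a + 1) * k - e) y else 1) ∂(iid ν) ≤
      Un (kc K B k Bd) (a * k + r - e) * Bd ^ k := by
    cases q with
    | false =>
      simp only [Bool.false_eq_true, if_false, mul_one]
      calc ∫⁻ y, PF (w0 K B k) (a * k + r - e) y ∂(iid ν) ≤ Un (kc K B k Bd) (a * k + r - e) := h2
        _ = Un (kc K B k Bd) (a * k + r - e) * 1 := (mul_one _).symm
        _ ≤ Un (kc K B k Bd) (a * k + r - e) * Bd ^ k := by
            gcongr
            exact one_le_pow₀ hB1
    | true =>
      simp only [if_true]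
      have h5 : ∀ y : ℕ → ℝ, PF (w0 K B k) (a * k + r - e) y *
          ex (a * k + r - e) ((a + 1) * k - e) y ≤ PF (w0 K B k) (a * k + r - e) y *
          (fun z => ex 0 ((a + 1) * k - (a * k + r)) z) (shift (a * k + r - e) y) := by
        intro y
        simp only
        rw [ex_shift, zero_add]
        by_cases hr : a * k + r ≤ (a + 1) * k
        · have e1 : (a + 1) * k - (a * k + r) + (a * k + r - e) = (a + 1) * k - e := by omega
          rw [e1]
        · have h3 : ex (a * k + r - e) ((a + 1) * k - e) y = 1 := by
            unfold ex H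
            rw [Finset.Ico_eq_empty (by omega)]
            simp
          have h4 : ex (a * k + r - e) ((a + 1) * k - (a * k + r) + (a * k + r - e)) y = 1 := by
            unfold ex H
            rw [Finset.Ico_eq_empty (by omega)]
            simp
          rw [h3, h4]
      refine le_trans (lintegral_mono h5) ?_
      rw [lint_mul_shift ν hP.2.1 hP.1 (measurable_ex _ _), lint_ex]
      have h6 : Mo ν 1 ^ ((a + 1) * k - (a * k + r)) ≤ Bd ^ k :=
        (pow_le_pow_left' hB _).trans (pow_le_pow_right' hB1 hk2)
      gcongr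
  -- the left factor
  have hL : ∫⁻ x, (if p then ex 0 e x else 1) ∂(iid ν) ≤ Bd ^ k := by
    cases p with
    | false =>
      simp only [Bool.false_eq_true, if_false, lintegral_const, measure_univ, mul_one]
      exact one_le_pow₀ hB1
    | true =>
      simp only [if_true]
      rw [lint_ex]
      exact (pow_le_pow_left' hB e).trans (pow_le_pow_right' hB1 he.le)
  have hLm : Measurable (fun x : ℕ → ℝ => if p then ex 0 e x else 1) := by
    cases p with
    | false => simp
    | true => simpa using measurable_ex 0 e
  have hLd : DepLt e (fun x : ℕ → ℝ => if p then ex 0 e x else 1) := by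
    intro x x' hx
    cases p with
    | false => simp
    | true =>
      simp only [if_true]
      exact ex_dep 0 e x x' hx
  have hmono : ∀ x : ℕ → ℝ, (if p then ex 0 e x else 1) *
      PF (w0 K B k) (a * k + r - e) (shift e x) *
      (if q then ex (a * k + r) ((a + 1) * k) x else 1) ≤ (if p then ex 0 e x else 1) *
      (fun y => PF (w0 K B k) (a * k + r - e) y *
        (if q then ex (a * k + r - e) ((a + 1) * k - e) y else 1)) (shift e x) := by
    intro x
    rw [mul_assoc]
    exact mul_le_mul' le_rfl (mul_le_mul' le_rfl (hR x))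
  refine le_trans (lintegral_mono hmono) ?_
  refine le_trans (le_of_eq (lint_mul_shift ν hLd hLm hQm)) ?_
  calc (∫⁻ x, (if p then ex 0 e x else 1) ∂(iid ν)) * ∫⁻ y, PF (w0 K B k) (a * k + r - e) y *
      (if q then ex (a * k + r - e) ((a + 1) * k - e) y else 1) ∂(iid ν)
      ≤ Bd ^ k * (Un (kc K B k Bd) (a * k + r - e) * Bd ^ k) := mul_le_mul' hL hQ
    _ = Bd ^ (2 * k) * Un (kc K B k Bd) (a * k + r - e) := by
        rw [two_mul, pow_add]; ring

theorem pf_MO1 (hPFM : T_PFM) : T_MO1 := by
  intro ν _ K B k Bd hB1 hB p q a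
  have hW : WR (w0 K B k) := (hPFM.2 K).2 B k
  have hme : ∀ e r : ℕ, Measurable (fun x : ℕ → ℝ => if e ≤ a * k + r then
    (if p then ex 0 e x else 1) * PF (w0 K B k) (a * k + r - e) (shift e x) *
      (if q then ex (a * k + r) ((a + 1) * k) x else 1) else 0) := by
    intro e r
    split_ifs with h1 h2 h3 h3
    · exact ((measurable_ex 0 e).mul (((hPFM.1 _ hW).1 _).1.comp (measurable_shift _))).mul
        (measurable_ex _ _)
    · exact ((measurable_ex 0 e).mul (((hPFM.1 _ hW).1 _).1.comp (measurable_shift _))).mul
        measurable_const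
    · exact (measurable_const.mul (((hPFM.1 _ hW).1 _).1.comp (measurable_shift _))).mul
        (measurable_ex _ _)
    · exact (measurable_const.mul (((hPFM.1 _ hW).1 _).1.comp (measurable_shift _))).mul
        measurable_const
    · exact measurable_const
  unfold NX Vn
  rw [lintegral_finsetSum, Finset.mul_sum]
  · apply Finset.sum_le_sum
    intro e he
    rw [lintegral_finsetSum, Finset.mul_sum]
    · apply Finset.sum_le_sum
      intro r hr
      rw [Finset.mem_range] at he hr
      by_cases h : e ≤ a * k + r
      · simp only [if_pos h]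
        exact lint_term hPFM ν K B k Bd hB1 hB p q a e r he h
      · simp [if_neg h]
    · intro r _
      exact hme e r
  · intro e _
    apply Finset.measurable_sum
    intro r _
    exact hme e r

end Pool.Agent.H96.CE
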