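import Pool.Agent.H99.CE.Targets

/-!
# Row MSS of crx_modules: the tilted neutral mass

MP_65efe8_pr.
-/

set_option autoImplicit false

open MeasureTheory ProbabilityTheory Filter Topology
open scoped ENNReal
open Pool.Agent.H95 Pool.Agent.H95.Cop Pool.Agent.H96.Cop Pool.Agent.H99.CE

namespace Pool.Agent.H96.CE

lemma exp_le_two {y : ℝ} (h0 : 0 ≤ y) (h1 : y ≤ 1) : Real.exp y ≤ 1 + 2 * y := by
  have h3 := Real.abs_exp_sub_one_sub_id_le (x := y) (by rw [abs_of_nonneg h0]; exact h1)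
  rw [abs_le] at h3
  nlinarith [h3.2]

/-- convexity of the exponential -/
lemma exp_chord {V y : ℝ} (hy0 : 0 ≤ y) (hy1 : y ≤ 1) :
    Real.exp (V * y) ≤ 1 + y * (Real.exp V - 1) := by
  have h := convexOn_exp.2 (Set.mem_univ V) (Set.mem_univ 0) hy0
    (by linarith : 0 ≤ 1 - y) (by ring)
  simp only [smul_eq_mul, mul_zero, add_zero, Real.exp_zero, mul_one] at h
  rw [mul_comm V y]
  linarith

lemma sum_shift_le (f : ℕ → ℝ) (hf : ∀ m, 0 ≤ f m) (B N : ℕ) :
    ∑ j ∈ Finset.range N, (if j + 1 ≤ B then f (j + 1) else 0) ≤ ∑ m ∈ Finset.Icc 1 B, f m := by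
  have h1 : ∑ m ∈ Finset.Icc 1 B, f m = ∑ j ∈ Finset.range B, f (j + 1) := by
    rw [← Finset.Ico_add_one_right_eq_Icc, Finset.sum_Ico_eq_sum_range]
    apply Finset.sum_congr (by simp)
    intro i _
    rw [add_comm]
  rw [h1, ← Finset.sum_filter]
  apply Finset.sum_le_sum_of_subset_of_nonneg
  · intro j hj
    rw [Finset.mem_filter] at hj
    rw [Finset.mem_range]
    omega
  · intro i _ _
    exact hf _

/-- the gap of the tilted neutral kernel -/
lemma mss_gap (hTMN : T_TMN) (K : PMF ℕ) (hK0 : K 0 = 0) {α c δ b V lam : ℝ} {n1 k n0 : ℕ}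
    (hα : 0 < α) (hαδ : 5 * α ≤ δ) (hc : 0 < c) (hδ : 0 < δ) (hδ1 : δ ≤ 1 / 20)
    (hReg : Reg K α c δ n1) (hk : 1 ≤ k) (hn1k : n1 ≤ k)
    (hn1 : (n1 : ℝ) ≤ c * (k : ℝ) ^ (1 - α)) (hb : 0 ≤ b) (hbk : b * k ≤ δ) (hn0 : 2 ≤ n0)
    (hk0 : (0 : ℝ) < k) (hN0 : (0 : ℝ) < n0) (hN1 : (1 : ℝ) ≤ n0)
    (heV : Real.exp V = (n0 : ℝ) ^ α) (hlam : lam = V / (n0 * k))
    (hlam0 : 0 ≤ lam) (hlamk : lam * k ≤ δ) :
    1 / 2 * ∑ m ∈ Finset.Icc 1 (n0 * k), kk K m * Real.exp (lam * m) +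
      1 / 2 * ∑ m ∈ Finset.Icc 1 k, kk K m * Real.exp ((b + lam) * m) ≤
      1 - c / (2 * α) * (k : ℝ) ^ (-α) * (1 - 2 * δ) := by
  have hα1 : α ≤ 1 / 100 := by linarith
  -- truncated sums
  obtain ⟨hT1, hT2⟩ := hTMN K hK0 α c δ n1 (n0 * k) hα (by linarith) hc hδ hδ1 hReg
    (Nat.mul_pos (by omega) (by omega))
    (by
      refine hn1.trans ?_
      apply mul_le_mul_of_nonneg_left _ hc.le
      apply Real.rpow_le_rpow hk0.le _ (by linarith)
      push_cast
      exact le_mul_of_one_le_left hk0.le hN1)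
    (hn1k.trans (Nat.le_mul_of_pos_left k (by omega)))
  obtain ⟨hS1, hS2⟩ := hTMN K hK0 α c δ n1 k hα (by linarith) hc hδ hδ1 hReg hk hn1 hn1k
  have hkα : 0 < (k : ℝ) ^ (-α) := Real.rpow_pos_of_pos hk0 _
  have hka1 : (k : ℝ) ^ (1 - α) = k * (k : ℝ) ^ (-α) := by
    rw [sub_eq_add_neg, Real.rpow_add hk0, Real.rpow_one]
  -- the part above the interface
  have hup : ∑ m ∈ Finset.Icc 1 (n0 * k), kk K m * Real.exp (lam * m) ≤
      1 + 3 * c * (k : ℝ) ^ (-α) := by
    have h1 : ∀ m ∈ Finset.Icc 1 (n0 * k), kk K m * Real.exp (lam * m) ≤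
        kk K m + (n0 : ℝ) ^ α / (n0 * k) * (m * kk K m) := by
      intro m hm
      rw [Finset.mem_Icc] at hm
      have hm2 : (m : ℝ) ≤ n0 * k := by exact_mod_cast hm.2
      have e1 : lam * m = V * (m / (n0 * k)) := by rw [hlam]; ring
      have h2 := exp_chord (V := V) (y := (m : ℝ) / (n0 * k)) (by positivity)
        (by rw [div_le_one (by positivity)]; exact hm2)
      rw [← e1, heV] at h2
      have h3 : (m : ℝ) / (n0 * k) * ((n0 : ℝ) ^ α - 1) ≤ (m : ℝ) / (n0 * k) * (n0 : ℝ) ^ α := by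
        apply mul_le_mul_of_nonneg_left (by linarith) (by positivity)
      calc kk K m * Real.exp (lam * m) ≤ kk K m * (1 + (m : ℝ) / (n0 * k) * (n0 : ℝ) ^ α) :=
            mul_le_mul_of_nonneg_left (by linarith) (kk_nonneg K m)
        _ = _ := by ring
    refine (Finset.sum_le_sum h1).trans ?_
    rw [Finset.sum_add_distrib, ← Finset.mul_sum]
    have h2 : ∑ m ∈ Finset.Icc 1 (n0 * k), kk K m ≤ 1 := by
      refine hT2.trans ?_
      have : 0 ≤ (1 - δ) * (1 - α) * (c / α) * ((n0 * k : ℕ) : ℝ) ^ (-α) := by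
        have h3 : 0 ≤ 1 - δ := by linarith
        have h4 : 0 ≤ 1 - α := by linarith
        positivity
      linarith
    have h3 : (n0 : ℝ) ^ α / (n0 * k) * ∑ m ∈ Finset.Icc 1 (n0 * k), (m : ℝ) * kk K m ≤
        (n0 : ℝ) ^ α / (n0 * k) * (3 * c * ((n0 * k : ℕ) : ℝ) ^ (1 - α)) :=
      mul_le_mul_of_nonneg_left hT1 (by positivity)
    have h4 : (n0 : ℝ) ^ α / (n0 * k) * (3 * c * ((n0 * k : ℕ) : ℝ) ^ (1 - α)) =
        3 * c * (k : ℝ) ^ (-α) := by
      push_cast
      rw [Real.mul_rpow hN0.le hk0.le, sub_eq_add_neg, Real.rpow_add hN0, Real.rpow_add hk0,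
        Real.rpow_one, Real.rpow_one, Real.rpow_neg hN0.le]
      have : 0 < (n0 : ℝ) ^ α := Real.rpow_pos_of_pos hN0 _
      field_simp
    linarith
  -- the part below the interface
  have hlow : ∑ m ∈ Finset.Icc 1 k, kk K m * Real.exp ((b + lam) * m) ≤
      1 - (1 - δ) * (1 - α) * (c / α) * (k : ℝ) ^ (-α) + 12 * δ * c * (k : ℝ) ^ (-α) := by
    have h1 : ∀ m ∈ Finset.Icc 1 k, kk K m * Real.exp ((b + lam) * m) ≤
        kk K m + 4 * δ / k * (m * kk K m) := by
      intro m hm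
      rw [Finset.mem_Icc] at hm
      have hm2 : (m : ℝ) ≤ k := by exact_mod_cast hm.2
      have hm0 : (0 : ℝ) ≤ m := Nat.cast_nonneg m
      have hs : (b + lam) * k ≤ 2 * δ := by
        have : (b + lam) * k = b * k + lam * k := by ring
        linarith
      have h2 : (b + lam) * m ≤ 2 * δ * (m / k) := by
        have e : (b + lam) * m = (b + lam) * k * (m / k) := by field_simp
        rw [e]
        exact mul_le_mul_of_nonneg_right hs (by positivity)
      have h3 : (m : ℝ) / k ≤ 1 := by rw [div_le_one hk0]; exact hm2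
      have h4 : 2 * δ * ((m : ℝ) / k) ≤ 1 := by
        have := mul_le_mul_of_nonneg_left h3 (by positivity : 0 ≤ 2 * δ)
        linarith
      have h5 := exp_le_two (y := (b + lam) * m) (by positivity) (h2.trans h4)
      calc kk K m * Real.exp ((b + lam) * m) ≤ kk K m * (1 + 2 * (2 * δ * (m / k))) :=
            mul_le_mul_of_nonneg_left (by linarith) (kk_nonneg K m)
        _ = _ := by ring
    refine (Finset.sum_le_sum h1).trans ?_
    rw [Finset.sum_add_distrib, ← Finset.mul_sum]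
    have h3 : 4 * δ / k * ∑ m ∈ Finset.Icc 1 k, (m : ℝ) * kk K m ≤
        4 * δ / k * (3 * c * (k : ℝ) ^ (1 - α)) :=
      mul_le_mul_of_nonneg_left hS1 (by positivity)
    have h4 : 4 * δ / k * (3 * c * (k : ℝ) ^ (1 - α)) = 12 * δ * c * (k : ℝ) ^ (-α) := by
      rw [hka1]
      have h5 : 4 * δ / k * (3 * c * (k * (k : ℝ) ^ (-α))) =
          12 * δ * c * (k : ℝ) ^ (-α) * (k / k) := by ring
      rw [h5, div_self hk0.ne', mul_one]
    linarith
  -- the gap
  have h1 : 1 - 2 * δ ≤ (1 - δ) * (1 - α) - 3 * α - 12 * (α * δ) := by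
    have h2 : α * δ ≤ α * (1 / 20) := mul_le_mul_of_nonneg_left hδ1 hα.le
    have h3 : (1 - δ) * (1 - α) = 1 - δ - α + α * δ := by ring
    rw [h3]
    linarith
  have h2 : 0 < c / (2 * α) * (k : ℝ) ^ (-α) := by positivity
  have h3 := mul_le_mul_of_nonneg_left h1 h2.le
  have e : c / (2 * α) * (k : ℝ) ^ (-α) * ((1 - δ) * (1 - α) - 3 * α - 12 * (α * δ)) =
      1 / 2 * ((1 - δ) * (1 - α) * (c / α) * (k : ℝ) ^ (-α)) -
      1 / 2 * (3 * c * (k : ℝ) ^ (-α)) - 1 / 2 * (12 * δ * c * (k : ℝ) ^ (-α)) := by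
    field_simp
  rw [e] at h3
  linarith

theorem pf_MSS (hTMN : T_TMN) : T_MSS := by
  intro K hK0 α c δ b n1 k n0 hα hαδ hc hδ hδ1 hReg hk hn1k hn1 hb hbk hn0 ha1 n
  have hk0 : (0 : ℝ) < k := by exact_mod_cast hk
  have hN0 : (0 : ℝ) < n0 := by
    have : 0 < n0 := by omega
    exact_mod_cast this
  have hN1 : (1 : ℝ) ≤ n0 := by
    have : 1 ≤ n0 := by omega
    exact_mod_cast this
  set V := α * Real.log n0 with hV
  have hV0 : 0 ≤ V := by
    have := Real.log_nonneg hN1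
    rw [hV]; positivity
  have heV : Real.exp V = (n0 : ℝ) ^ α := by
    rw [hV, Real.rpow_def_of_pos hN0, mul_comm]
  set lam := V / (n0 * k) with hlam
  have hlam0 : 0 ≤ lam := by positivity
  have hlamk : lam * k ≤ δ := by
    rw [hlam]
    have e : V / (n0 * k) * k = V / n0 := by field_simp
    rw [e, div_le_iff₀ hN0]
    exact ha1
  have hkα : 0 < (k : ℝ) ^ (-α) := Real.rpow_pos_of_pos hk0 _
  set g := c / (2 * α) * (k : ℝ) ^ (-α) * (1 - 2 * δ) with hg
  have hg0 : 0 < g := by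
    have : 0 < 1 - 2 * δ := by linarith
    rw [hg]; positivity
  have hρ := mss_gap hTMN K hK0 hα hαδ hc hδ hδ1 hReg hk hn1k hn1 hb hbk hn0 hk0 hN0 hN1
    heV hlam hlam0 hlamk
  rw [← hg] at hρ
  -- weights
  set w : ℕ → ℝ≥0∞ := fun m => ENNReal.ofReal (Real.exp (lam * m)) with hw
  have hw0 : w 0 ≤ 1 := by rw [hw]; simp
  have hwm : Monotone w := by
    intro i j hij
    apply ENNReal.ofReal_le_ofReal
    apply Real.exp_le_exp.mpr
    apply mul_le_mul_of_nonneg_left _ hlam0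
    exact_mod_cast hij
  have hwa : ∀ i j, w (i + j) ≤ w i * w j := by
    intro i j
    rw [hw]
    simp only
    rw [← ENNReal.ofReal_mul (Real.exp_pos _).le, ← Real.exp_add]
    apply le_of_eq
    push_cast
    congr 2
    ring
  set κ := kc K (n0 * k) k (ENNReal.ofReal (Real.exp b)) with hκ
  have hhalf : (2⁻¹ : ℝ≥0∞) = ENNReal.ofReal (1 / 2) := by
    rw [one_div, ENNReal.ofReal_inv_of_pos (by norm_num)]; norm_num
  have hκw : ∀ m, κ m * w m = ENNReal.ofReal
      ((if m ≤ n0 * k then 1 / 2 * (kk K m * Real.exp (lam * m)) else 0) +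
        (if m ≤ k then 1 / 2 * (kk K m * Real.exp ((b + lam) * m)) else 0)) := by
    intro m
    have hkk := kk_nonneg K m
    rw [ENNReal.ofReal_add (by split_ifs <;> positivity) (by split_ifs <;> positivity), hκ, hw]
    unfold kc wa pk
    rw [add_mul]
    congr 1
    · split_ifs
      · rw [hhalf, ← ENNReal.ofReal_mul hkk, ← ENNReal.ofReal_mul (by positivity)]
        congr 1
        ring
      · simp
    · split_ifs
      · rw [hhalf, ← ENNReal.ofReal_pow (Real.exp_pos _).le, ← ENNReal.ofReal_mul hkk,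
          ← ENNReal.ofReal_mul (by positivity), ← ENNReal.ofReal_mul (by positivity)]
        congr 1
        rw [← Real.exp_nat_mul]
        have e : Real.exp ((b + lam) * m) = Real.exp (m * b) * Real.exp (lam * m) := by
          rw [← Real.exp_add]
          congr 1
          ring
        rw [e]
        ring
      · simp
  have hsum : ∀ N, ∑ j ∈ Finset.range N, κ (j + 1) * w (j + 1) ≤ ENNReal.ofReal (1 - g) := by
    intro N
    simp_rw [hκw]
    rw [← ENNReal.ofReal_sum_of_nonneg]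
    · apply ENNReal.ofReal_le_ofReal
      rw [Finset.sum_add_distrib]
      have h1 := sum_shift_le (fun m => 1 / 2 * (kk K m * Real.exp (lam * m)))
        (fun m => by have := kk_nonneg K m; positivity) (n0 * k) N
      have h2 := sum_shift_le (fun m => 1 / 2 * (kk K m * Real.exp ((b + lam) * m)))
        (fun m => by have := kk_nonneg K m; positivity) k N
      rw [← Finset.mul_sum] at h1 h2
      linarith
    · intro j _
      have := kk_nonneg K (j + 1)
      apply add_nonneg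
      · split_ifs <;> positivity
      · split_ifs <;> positivity
  have h1g : 0 ≤ 1 - g := by
    refine le_trans ?_ hρ
    have h1 : ∀ (s : ℝ) (T : Finset ℕ), 0 ≤ ∑ m ∈ T, kk K m * Real.exp (s * m) := by
      intro s T
      apply Finset.sum_nonneg
      intro m _
      have := kk_nonneg K m
      positivity
    have h2 := h1 lam (Finset.Icc 1 (n0 * k))
    have h3 := h1 (b + lam) (Finset.Icc 1 k)
    linarith
  have hR : 1 + ENNReal.ofReal (1 - g) * ENNReal.ofReal (1 / g) ≤ ENNReal.ofReal (1 / g) := by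
    rw [← ENNReal.ofReal_mul h1g, ← ENNReal.ofReal_one, ← ENNReal.ofReal_add zero_le_one
      (by positivity)]
    apply ENNReal.ofReal_le_ofReal
    apply le_of_eq
    field_simp
    ring
  have hU := sum_Un κ w hw0 hwa _ _ hsum hR
  have hVs := sum_Vn κ w hwm hwa _ hU k n
  have hterm : ∀ a ∈ Finset.range n, Vb K n0 k b a * ENNReal.ofReal ((n0 : ℝ) ^ (α * a / n0)) =
      ENNReal.ofReal (Real.exp (2 * b * k)) * (Vn κ k a * w (a * k)) := by
    intro a _
    unfold Vb
    rw [← hκ, mul_assoc]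
    congr 3
    rw [Real.rpow_def_of_pos hN0]
    congr 1
    rw [hlam, hV]
    push_cast
    field_simp
  rw [Finset.sum_congr rfl hterm, ← Finset.mul_sum]
  refine (mul_le_mul' le_rfl hVs).trans ?_
  have e1 : (k : ℝ≥0∞) = ENNReal.ofReal (k : ℝ) := (ENNReal.ofReal_natCast k).symm
  rw [e1, hw]
  simp only
  rw [← ENNReal.ofReal_mul (by positivity), ← ENNReal.ofReal_mul (by positivity),
    ← ENNReal.ofReal_mul (by positivity)]
  apply ENNReal.ofReal_le_ofReal
  have h2 : Real.exp (2 * b * k) ≤ Real.exp (2 * δ) := Real.exp_le_exp.mpr (by linarith)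
  have h3 : Real.exp (lam * k) ≤ Real.exp δ := Real.exp_le_exp.mpr hlamk
  have h4 : Real.exp (2 * b * k) * Real.exp (lam * k) ≤ Real.exp (3 * δ) := by
    calc Real.exp (2 * b * k) * Real.exp (lam * k) ≤ Real.exp (2 * δ) * Real.exp δ := by
          gcongr
      _ = Real.exp (3 * δ) := by rw [← Real.exp_add]; congr 1; ring
  have hδδ : δ * δ ≤ δ * (1 / 20) := mul_le_mul_of_nonneg_left hδ1 hδ.le
  have h5 : Real.exp (3 * δ) ≤ 1 + 4 * δ := by
    have h6 := Real.abs_exp_sub_one_sub_id_le (x := 3 * δ) (by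
      rw [abs_of_pos (by positivity)]; linarith)
    rw [abs_le] at h6
    have h7 : (3 * δ) ^ 2 = 9 * (δ * δ) := by ring
    have h8 := h6.2
    rw [h7] at h8
    linarith
  have h6 : 1 + 4 * δ ≤ (1 + 16 * δ) * (1 - 2 * δ) := by
    have h7 : (1 + 16 * δ) * (1 - 2 * δ) = 1 + 14 * δ - 32 * (δ * δ) := by ring
    rw [h7]
    linarith
  have hk1 : (k : ℝ) ^ (1 + α) = k * (k : ℝ) ^ α := by
    rw [Real.rpow_add hk0, Real.rpow_one]
  have hkaa : (k : ℝ) ^ α * (k : ℝ) ^ (-α) = 1 := by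
    rw [← Real.rpow_add hk0]; simp
  have hkp : 0 < (k : ℝ) ^ α := Real.rpow_pos_of_pos hk0 _
  unfold mb
  rw [hk1]
  calc Real.exp (2 * b * k) * (k * (Real.exp (lam * k) * (1 / g)))
      = (Real.exp (2 * b * k) * Real.exp (lam * k)) * (k / g) := by ring
    _ ≤ ((1 + 16 * δ) * (1 - 2 * δ)) * (k / g) := by
        apply mul_le_mul_of_nonneg_right _ (by positivity)
        linarith
    _ = (1 + 16 * δ) * (2 * α / c) * (k * (k : ℝ) ^ α) := by
        have h7 : 1 - 2 * δ ≠ 0 := by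
          have : 0 < 1 - 2 * δ := by linarith
          exact this.ne'
        rw [hg, div_eq_mul_inv]
        have e2 : (c / (2 * α) * (k : ℝ) ^ (-α) * (1 - 2 * δ))⁻¹ =
            2 * α / c * (k : ℝ) ^ α * (1 - 2 * δ)⁻¹ := by
          have h8 : (k : ℝ) ^ (-α) = ((k : ℝ) ^ α)⁻¹ := Real.rpow_neg hk0.le _
          rw [h8]
          field_simp
        rw [e2]
        have e3 : (1 + 16 * δ) * (1 - 2 * δ) * (k * (2 * α / c * (k : ℝ) ^ α * (1 - 2 * δ)⁻¹)) =
            (1 + 16 * δ) * (2 * α / c) * (k * (k : ℝ) ^ α) * ((1 - 2 * δ) * (1 - 2 * δ)⁻¹) := by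
          ring
        rw [e3, mul_inv_cancel₀ h7, mul_one]

end Pool.Agent.H96.CE
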